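import Pool.Agent.H97.TC.Few

/-!
# TC: (LF), (YF)
-/

set_option autoImplicit false

namespace Pool.TC97

open Finset Real
open Pool.Agent.H49.Ent Pool.Agent.H32.Dense Pool.STAT Pool.MIC Pool.TC
open Pool.STK hiding bb
open Pool.P4 (t0 rt pp ze zt z0 cl1 dg dgp Ry cb LLC tq err)
open Pool.BFL (Pb)
open Pool.P546 (few_law dig_law ev_law full_ev of_ev mi_ev mi_part lf_core rcls lcls few_two
  fl_sub Ry_one' log7 log13 logR_le)

section

variable {D : NDat2} {n d K K' J a₀ w₀ z M w i j r r2 r' r'' y a X : ℕ} {th : ℝ}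
  {lam gam : ℕ → ℝ} {κ C₁ C : ℝ} {q : D.Ω → ℝ} {E : D.Ω → Prop} {P : D.Γ × D.Γ → ℕ → PN}
  {S : Slo D} {c k0 k1 : ℕ} {ys : Fin (k0 + k1) → ℕ} {gs : Fin c → ℕ}

theorem ztv_rng {k : ℕ} (zs : Fin k → ℕ) (ω : D.Ω) (l : Fin k) :
    0 ≤ ztv D z i j r X C P zs ω l ∧ ztv D z i j r X C P zs ω l < 2 ^ X := by
  have h := Pool.P4E.dgp_range X ((ze D i j r P ω (zs l) + Ry z C) / (2 * Ry z C))
  unfold ztv
  exact ⟨h.1, by linarith [h.2]⟩

/-- The context with the exact time. -/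
def Wc (D : NDat2) (J w i j r : ℕ) (ω : D.Ω) : ((D.Γ × D.Γ) × ℕ) × ℕ :=
  (cb D J w i j r ω, D.T ω)

variable (H : Hyp D n d K K' J a₀ w₀ z M w i j r r2 r' r'' y a X th lam gam κ C₁ C q E P S ys gs)

include H

/-- The numbers. -/
theorem nums {F : ℝ} (hF : F = (1 + κ) * z + X * Pb q (fun ω => ¬ E ω)) :
    1 ≤ F ∧ (z : ℝ) ≤ F ∧ κ * z ≤ F ∧ (X : ℝ) * Pb q (fun ω => ¬ E ω) ≤ F ∧
      κ * z + z ≤ F := by
  have hq := H.ok.isLaw
  have b0 := Pb_nonneg hq.nonneg (fun ω => ¬ E ω)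
  have hz : (1 : ℝ) ≤ z := by exact_mod_cast H.z1
  have hX : (0 : ℝ) ≤ X := Nat.cast_nonneg _
  have hXb := mul_nonneg hX b0
  have hκz : 0 ≤ κ * z := mul_nonneg H.κ0 (by linarith)
  have e : (1 + κ) * (z : ℝ) = z + κ * z := by ring
  rw [e] at hF
  refine ⟨?_, ?_, ?_, ?_, ?_⟩ <;> linarith

/-- Fullness at the exact time, given the event. -/
theorem zt_full {k : ℕ} (zs : Fin k → ℕ) (zs_in : Function.Injective zs)
    (zs_sl : ∀ a, sl th gam n (zs a)) {F : ℝ}
    (hF : F = (1 + κ) * z + X * Pb q (fun ω => ¬ E ω)) :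
    (k : ℝ) * X * Real.log 2 ≤ CH (cond q E True) (ztv D z i j r X C P zs)
      (Wc D J w i j r) + (2 * C + 6 + 4 * n * (C + 1) + 14 * k + 10 * n) * F := by
  have hq := H.ok.isLaw
  have h1 := ztv_full H zs zs_in zs_sl
  obtain ⟨F1, F2, F3, F4, F5⟩ := nums H hF
  obtain ⟨b, hb⟩ : ∃ b : ℝ, b = Pb q (fun ω => ¬ E ω) := ⟨_, rfl⟩
  have b0 : 0 ≤ b := by rw [hb]; exact Pb_nonneg hq.nonneg _
  have b1 : b ≤ 1 := by
    have := Pb_not hq.sum_one E
    have := Pb_nonneg hq.nonneg E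
    linarith
  rw [← hb] at h1 hF F4
  have hC := H.Cg
  have hX : (0 : ℝ) ≤ X := Nat.cast_nonneg _
  have hn : (0 : ℝ) ≤ n := Nat.cast_nonneg _
  have hk : (0 : ℝ) ≤ k := Nat.cast_nonneg _
  have h2 := full_ev hq (ztv D z i j r X C P zs) (Wc D J w i j r) (fun ω _ l => ztv_rng zs ω l) E
    H.pE (e := C * z + 2 + n * (2 * (C * z) + 2) + (k : ℝ) * 2 +
      (n + (k : ℝ)) * ((X + 4) * b)) (by
        have : 0 ≤ C * z := by positivity
        have : 0 ≤ ((X : ℝ) + 4) * b := mul_nonneg (by linarith) b0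
        positivity) h1
  refine h2.trans (add_le_add le_rfl ?_)
  have hl : Real.log 2 ≤ 1 := by
    have := Real.log_two_lt_d9
    linarith
  have t1 : C * z ≤ C * F := mul_le_mul_of_nonneg_left F2 (by linarith)
  have t2 : (n : ℝ) * (2 * (C * z) + 2) ≤ n * (2 * (C * F) + 2 * F) :=
    mul_le_mul_of_nonneg_left (by linarith) hn
  have t3 : ((X : ℝ) + 4) * b ≤ 5 * F := by linarith
  have t4 : ((n : ℝ) + k) * ((X + 4) * b) ≤ (n + k) * (5 * F) :=
    mul_le_mul_of_nonneg_left t3 (by linarith)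
  have t5 : (k : ℝ) * 1 ≤ k * F := mul_le_mul_of_nonneg_left F1 hk
  have t6 : (2 * C + 6 + 4 * n * (C + 1) + 14 * k + 10 * n) * F =
      2 * (C * F) + 6 * F + 2 * (n * (2 * (C * F) + 2 * F)) + 4 * (k * F) +
        2 * ((n + k) * (5 * F)) := by ring
  rw [t6]
  linarith

/-- The data of the constant coordinates and of the moving ones, at `L2`. -/
theorem V0_few : CH (cond q E True)
    (fun ω => (y0v D J w z i j r X C P ys ω, mv D J w z i j r d X C P ys ω))
    (fun ω => (D.lft i j r2 r 1 ω, Wc D J w i j r ω)) ≤ 3 * (k0 + k1 * d) := by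
  have hp := (plaw H).nonneg
  have h1 := CH_subadd hp (y0v D J w z i j r X C P ys) (mv D J w z i j r d X C P ys)
    (fun ω => (D.lft i j r2 r 1 ω, Wc D J w i j r ω))
  have h3 : CH (cond q E True) (y0v D J w z i j r X C P ys)
    (fun ω => (D.lft i j r2 r 1 ω, Wc D J w i j r ω)) ≤ k0 * Real.log (2 * 3 + 1) := y0_few H
  have h4 : CH (cond q E True) (mv D J w z i j r d X C P ys)
    (fun ω => (D.lft i j r2 r 1 ω, Wc D J w i j r ω)) ≤ k1 * d * Real.log (2 * 3 + 1) := mv_few H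
  have t1 := mul_le_mul_of_nonneg_left log7 (Nat.cast_nonneg (α := ℝ) k0)
  have t2 := mul_le_mul_of_nonneg_left log7
    (mul_nonneg (Nat.cast_nonneg (α := ℝ) k1) (Nat.cast_nonneg (α := ℝ) d))
  linarith

/-- **(LF)** -/
theorem lf_key {F : ℝ} (hF : F = (1 + κ) * z + X * Pb q (fun ω => ¬ E ω)) :
    (k1 : ℝ) * X * Real.log 2 ≤ CH q (y1v D J w z i j r X C P ys)
      (fun ω => ((y0v D J w z i j r X C P ys ω, mv D J w z i j r d X C P ys ω),
        cb D J w i j r ω)) +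
      (14 + 3 * (k0 + k1 * d) + 3 * k1 + 6 * (k1 * k0) + (k0 + k1) * (2 * (d + 5)) +
        k1 * (2 * (5 + 2 * d + 5 * k0) + C) + k1 * (2 * (3 + 3 * k0) + C) +
        (2 * C + 4 * n * (C + 1) + 14 * (k0 + k1) + 10 * n) + k1) * F := by
  have hq := H.ok.isLaw
  have hp := plaw H
  have hp0 := hp.nonneg
  obtain ⟨F1, F2, F3, F4, F5⟩ := nums H hF
  have hC := H.Cg
  have hn : (0 : ℝ) ≤ n := Nat.cast_nonneg _
  have hd : (0 : ℝ) ≤ d := Nat.cast_nonneg _
  have hk0 : (0 : ℝ) ≤ k0 := Nat.cast_nonneg _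
  have hk1 : (0 : ℝ) ≤ k1 := Nat.cast_nonneg _
  have hF0 : 0 ≤ F := by linarith
  have hl : Real.log 2 ≤ 1 := by
    have := Real.log_two_lt_d9
    linarith
  have hl0 : 0 ≤ Real.log 2 := Real.log_nonneg (by norm_num)
  -- the own sheets and the data
  have a1 : CH (cond q E True) (D.rgt i j r2 r 1) (Wc D J w i j r) ≤
      CH (cond q E True) (D.rgt i j r2 r 1) (fun ω => (D.lft i j r2 r 1 ω, Wc D J w i j r ω)) +
        2 * (κ * z + Real.log 2) := mi5E H (r2i H) (r2M H)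
  have a2 := V0_few H
  have a3 : CH (cond q E True)
      (fun ω => (Lav D n z i j r X th gam C P S ys ω, Elv D X S ys ω))
      (fun ω => (D.rgt i j r2 r 1 ω, Wc D J w i j r ω)) ≤ 3 * k1 + 3 * (k1 * k0) := by
    have b1 := CH_subadd hp0 (Lav D n z i j r X th gam C P S ys) (Elv D X S ys)
      (fun ω => (D.rgt i j r2 r 1 ω, Wc D J w i j r ω))
    have b2 : CH (cond q E True) (Lav D n z i j r X th gam C P S ys)
      (fun ω => (D.rgt i j r2 r 1 ω, Wc D J w i j r ω)) ≤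
      k1 * Real.log (2 * 3 + 1) := Lav_few H
    have b3 : CH (cond q E True) (Elv D X S ys)
      (fun ω => (D.rgt i j r2 r 1 ω, Wc D J w i j r ω)) ≤
      k1 * k0 * Real.log (2 * 3 + 1) := Elv_few H (Or.inl rfl)
    have b4 := mul_le_mul_of_nonneg_left log7 hk1
    have b5 := mul_le_mul_of_nonneg_left log7 (mul_nonneg hk1 hk0)
    linarith
  have h1 := mi_part hp0 a1 a2 a3
  -- the slopes and the line
  have c1 : CH (cond q E True) (D.rgt i j r'' r 1) (Wc D J w i j r) ≤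
      CH (cond q E True) (D.rgt i j r'' r 1) (fun ω => (D.lft i j r'' r 1 ω, Wc D J w i j r ω)) +
        2 * (κ * z + Real.log 2) := mi5E H H.i1 H.i2
  have c2 : CH (cond q E True)
      (fun ω => ((fun l : Fin k1 => ztv D z i j r X C P ys ω (Fin.natAdd k0 l)),
        (fun b : Fin k0 => ztv D z i j r X C P ys ω (Fin.castAdd k1 b))))
      (fun ω => (D.lft i j r'' r 1 ω, Wc D J w i j r ω)) ≤ (k0 + k1) * (2 * (d + 5)) := by
    have b1 : CH (cond q E True) (ztv D z i j r X C P ys)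
      (fun ω => (D.lft i j r'' r 1 ω, Wc D J w i j r ω)) ≤
      (k0 + k1) * Real.log (2 * (d + 5) + 1) := zt_few H
    have b2 : Real.log (2 * ((d : ℝ) + 5) + 1) ≤ 2 * (d + 5) := by
      have := Real.log_le_sub_one_of_pos (show (0 : ℝ) < 2 * ((d : ℝ) + 5) + 1 by positivity)
      linarith
    have b2' := mul_le_mul_of_nonneg_left b2 (add_nonneg hk0 hk1)
    have b3 : CH (cond q E True)
        (fun ω => ((fun l : Fin k1 => ztv D z i j r X C P ys ω (Fin.natAdd k0 l)),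
          (fun b : Fin k0 => ztv D z i j r X C P ys ω (Fin.castAdd k1 b))))
        (fun ω => (D.lft i j r'' r 1 ω, Wc D J w i j r ω)) ≤
        CH (cond q E True) (ztv D z i j r X C P ys)
        (fun ω => (D.lft i j r'' r 1 ω, Wc D J w i j r ω)) := by
      refine CH_mono_left hp0 ?_
      intro ω ω' _ _ e
      have e1 : ztv D z i j r X C P ys ω = ztv D z i j r X C P ys ω' := (Prod.ext_iff.1 e).1
      refine Prod.ext ?_ ?_
      · funext l
        exact congrFun e1 (Fin.natAdd k0 l)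
      · funext l
        exact congrFun e1 (Fin.castAdd k1 l)
    linarith
  have c3 : CH (cond q E True) (Elv D X S ys)
      (fun ω => (D.rgt i j r'' r 1 ω, Wc D J w i j r ω)) ≤ 3 * (k1 * k0) := by
    have b3 : CH (cond q E True) (Elv D X S ys)
      (fun ω => (D.rgt i j r'' r 1 ω, Wc D J w i j r ω)) ≤
      k1 * k0 * Real.log (2 * 3 + 1) := Elv_few H (Or.inr rfl)
    have b5 := mul_le_mul_of_nonneg_left log7 (mul_nonneg hk1 hk0)
    linarith
  have h2 := mi_part hp0 c1 c2 c3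
  -- few values
  have h3 := Lav_of H
  have h3' := mul_le_mul_of_nonneg_left (logR_le (z := z) hC
      (show (0 : ℝ) ≤ 5 + 2 * d + 5 * k0 by positivity)) hk1
  have h4 := Lt_of H
  have h4' := mul_le_mul_of_nonneg_left (logR_le (z := z) hC
      (show (0 : ℝ) ≤ 3 + 3 * k0 by positivity)) hk1
  have h5 : CH (cond q E True) (fun ω (b : Fin k0) => ztv D z i j r X C P ys ω (Fin.castAdd k1 b))
      (fun ω => (Elv D X S ys ω, Wc D J w i j r ω)) ≤ k0 * X * Real.log 2 + 0 := by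
    rw [add_zero]
    exact dig_law hp _ _ fun ω _ l => ztv_rng ys ω _
  have h6 : (k1 : ℝ) * X * Real.log 2 + k0 * X * Real.log 2 ≤
      CH (cond q E True)
        (fun ω => ((fun l : Fin k1 => ztv D z i j r X C P ys ω (Fin.natAdd k0 l)),
          (fun b : Fin k0 => ztv D z i j r X C P ys ω (Fin.castAdd k1 b))))
        (Wc D J w i j r) + (2 * C + 6 + 4 * n * (C + 1) + 14 * (k0 + k1) + 10 * n) * F := by
    have b1 := zt_full H ys H.ys_in H.ys_sl hF
    push_cast at b1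
    have b2 : CH (cond q E True) (ztv D z i j r X C P ys) (Wc D J w i j r) ≤
        CH (cond q E True)
          (fun ω => ((fun l : Fin k1 => ztv D z i j r X C P ys ω (Fin.natAdd k0 l)),
            (fun b : Fin k0 => ztv D z i j r X C P ys ω (Fin.castAdd k1 b))))
        (Wc D J w i j r) := by
      refine CH_mono_left hp0 ?_
      intro ω ω' _ _ e
      have e1 := Prod.ext_iff.1 (Prod.ext_iff.1 e).1
      funext b
      refine Fin.addCases (fun b => ?_) (fun b => ?_) b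
      · exact congrFun e1.2 b
      · exact congrFun e1.1 b
    have b3 : ((k0 : ℝ) + k1) * X * Real.log 2 =
        (k1 : ℝ) * X * Real.log 2 + k0 * X * Real.log 2 := by ring
    rw [b3] at b1
    linarith
  have key := lf_core hp0 (W := Wc D J w i j r) (c0 := cb D J w i j r)
    (V0 := fun ω => (y0v D J w z i j r X C P ys ω, mv D J w z i j r d X C P ys ω))
    (El := Elv D X S ys) (La := Lav D n z i j r X th gam C P S ys)
    (L0 := y1v D J w z i j r X C P ys)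
    (Lt := fun ω (l : Fin k1) => ztv D z i j r X C P ys ω (Fin.natAdd k0 l))
    (Yt := fun ω (b : Fin k0) => ztv D z i j r X C P ys ω (Fin.castAdd k1 b))
    (fun _ _ _ _ h => (Prod.ext_iff.1 h).1) h1 h2 (h3.trans h3') (h4.trans h4') h5 h6
  obtain ⟨err0, herr0⟩ : ∃ err0 : ℝ, err0 =
      (14 + 3 * (k0 + k1 * d) + 3 * k1 + 6 * (k1 * k0) + (k0 + k1) * (2 * (d + 5)) +
        k1 * (2 * (5 + 2 * d + 5 * k0) + C) + k1 * (2 * (3 + 3 * k0) + C) +
        (2 * C + 4 * n * (C + 1) + 14 * (k0 + k1) + 10 * n)) * F := ⟨_, rfl⟩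
  have key2 : (k1 : ℝ) * X * Real.log 2 ≤ CH (cond q E True) (y1v D J w z i j r X C P ys)
      (fun ω => ((y0v D J w z i j r X C P ys ω, mv D J w z i j r d X C P ys ω),
        cb D J w i j r ω)) + err0 := by
    refine key.trans (add_le_add le_rfl ?_)
    have cz : C * z ≤ C * F := mul_le_mul_of_nonneg_left F2 (by linarith)
    have one : ∀ x : ℝ, 0 ≤ x → x ≤ x * F := fun x hx => by
      have := mul_le_mul_of_nonneg_left F1 hx
      linarith
    have t1 := one (3 * (k0 + k1 * d)) (by positivity)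
    have t2 := one (3 * k1) (by positivity)
    have t3 := one (3 * (k1 * k0)) (by positivity)
    have t4 := one ((k0 + k1) * (2 * (d + 5))) (by positivity)
    have t5 : (k1 : ℝ) * (2 * (5 + 2 * d + 5 * k0) + C * z) ≤
        k1 * (2 * (5 + 2 * d + 5 * k0) * F + C * F) := by
      refine mul_le_mul_of_nonneg_left ?_ hk1
      have s1 := one (2 * (5 + 2 * d + 5 * k0)) (by positivity)
      linarith
    have t6 : (k1 : ℝ) * (2 * (3 + 3 * k0) + C * z) ≤
        k1 * (2 * (3 + 3 * k0) * F + C * F) := by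
      refine mul_le_mul_of_nonneg_left ?_ hk1
      have s1 := one (2 * (3 + 3 * k0)) (by positivity)
      linarith
    rw [herr0]
    have t7 : (14 + 3 * (k0 + k1 * d) + 3 * k1 + 6 * (k1 * k0) + (k0 + k1) * (2 * (d + 5)) +
        k1 * (2 * (5 + 2 * d + 5 * k0) + C) + k1 * (2 * (3 + 3 * k0) + C) +
        (2 * C + 4 * n * (C + 1) + 14 * (k0 + k1) + 10 * n)) * F =
        8 * F + 3 * (k0 + k1 * d) * F + 3 * k1 * F + 3 * (k1 * k0) * F + 3 * (k1 * k0) * F +
        (k0 + k1) * (2 * (d + 5)) * F + k1 * (2 * (5 + 2 * d + 5 * k0) * F + C * F) +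
        k1 * (2 * (3 + 3 * k0) * F + C * F) +
        (2 * C + 6 + 4 * n * (C + 1) + 14 * (k0 + k1) + 10 * n) * F := by ring
    rw [t7]
    linarith
  have he : 0 ≤ err0 := by
    rw [herr0]
    have : 0 ≤ C := by linarith
    positivity
  have fin := of_ev hq (y1v D J w z i j r X C P ys)
    (fun ω => ((y0v D J w z i j r X C P ys ω, mv D J w z i j r d X C P ys ω),
        cb D J w i j r ω)) E H.pE he key2
  refine fin.trans (add_le_add le_rfl ?_)
  obtain ⟨b, hb⟩ : ∃ b : ℝ, b = Pb q (fun ω => ¬ E ω) := ⟨_, rfl⟩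
  rw [← hb] at F4 ⊢
  have hb0 : 0 ≤ b := by rw [hb]; exact Pb_nonneg hq.nonneg _
  have u1 : b * ((k1 : ℝ) * X * Real.log 2) ≤ k1 * F := by
    have : b * ((k1 : ℝ) * X * Real.log 2) = k1 * (X * b) * Real.log 2 := by ring
    rw [this]
    have s1 : (k1 : ℝ) * (X * b) ≤ k1 * F := mul_le_mul_of_nonneg_left F4 hk1
    have s2 : 0 ≤ (k1 : ℝ) * (X * b) := by positivity
    calc (k1 : ℝ) * (X * b) * Real.log 2 ≤ k1 * (X * b) * 1 :=
          mul_le_mul_of_nonneg_left hl s2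
      _ ≤ k1 * F := by rw [mul_one]; exact s1
  rw [herr0, add_mul _ (k1 : ℝ) F]
  linarith

/-- **(YF)** -/
theorem yf_key {F : ℝ} (hF : F = (1 + κ) * z + X * Pb q (fun ω => ¬ E ω)) :
    (k0 : ℝ) * X * Real.log 2 ≤ CH q (y0v D J w z i j r X C P ys)
      (fun ω => (cb D J w i j r ω, D.T ω)) +
      (2 * C + 6 + 4 * n * (C + 1) + 18 * k0 + 10 * n) * F := by
  have hq := H.ok.isLaw
  have hp := plaw H
  have hp0 := hp.nonneg
  obtain ⟨F1, F2, F3, F4, F5⟩ := nums H hF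
  have hC := H.Cg
  have hn : (0 : ℝ) ≤ n := Nat.cast_nonneg _
  have hk0 : (0 : ℝ) ≤ k0 := Nat.cast_nonneg _
  have hF0 : 0 ≤ F := by linarith
  have hl : Real.log 2 ≤ 1 := by
    have := Real.log_two_lt_d9
    linarith
  have b1 := zt_full H (fun b : Fin k0 => ys (Fin.castAdd k1 b))
    (fun b b' hh => Fin.castAdd_injective k0 k1 (H.ys_in hh)) (fun b => (H.ys0 b).1) hF
  have b5 := CH_le_add hp0 (ztv D z i j r X C P (fun b : Fin k0 => ys (Fin.castAdd k1 b)))
    (y0v D J w z i j r X C P ys) (Wc D J w i j r)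
  have b6 : CH (cond q E True) (ztv D z i j r X C P (fun b : Fin k0 => ys (Fin.castAdd k1 b)))
      (fun ω => (y0v D J w z i j r X C P ys ω, Wc D J w i j r ω)) ≤
      k0 * Real.log (2 * 6 + 1) := Yt_of H
  have b7 := mul_le_mul_of_nonneg_left log13 hk0
  have b8 : (3 : ℝ) * k0 * 1 ≤ 3 * k0 * F := mul_le_mul_of_nonneg_left F1 (by positivity)
  have key2 : (k0 : ℝ) * X * Real.log 2 ≤ CH (cond q E True) (y0v D J w z i j r X C P ys)
      (Wc D J w i j r) + (2 * C + 6 + 4 * n * (C + 1) + 17 * k0 + 10 * n) * F := by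
    have b10 : (2 * C + 6 + 4 * n * (C + 1) + 17 * k0 + 10 * n) * F =
        (2 * C + 6 + 4 * n * (C + 1) + 14 * k0 + 10 * n) * F + 3 * k0 * F := by ring
    rw [b10]
    linarith
  have he : 0 ≤ (2 * C + 6 + 4 * n * (C + 1) + 17 * k0 + 10 * n) * F := by
    have : 0 ≤ C := by linarith
    positivity
  have fin := of_ev hq (y0v D J w z i j r X C P ys) (Wc D J w i j r) E H.pE he key2
  refine fin.trans (add_le_add le_rfl ?_)
  obtain ⟨b, hb⟩ : ∃ b : ℝ, b = Pb q (fun ω => ¬ E ω) := ⟨_, rfl⟩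
  rw [← hb] at F4 ⊢
  have hb0 : 0 ≤ b := by rw [hb]; exact Pb_nonneg hq.nonneg _
  have u1 : b * ((k0 : ℝ) * X * Real.log 2) ≤ k0 * F := by
    have : b * ((k0 : ℝ) * X * Real.log 2) = k0 * (X * b) * Real.log 2 := by ring
    rw [this]
    have s1 : (k0 : ℝ) * (X * b) ≤ k0 * F := mul_le_mul_of_nonneg_left F4 hk0
    have s2 : 0 ≤ (k0 : ℝ) * (X * b) := by positivity
    calc (k0 : ℝ) * (X * b) * Real.log 2 ≤ k0 * (X * b) * 1 :=
          mul_le_mul_of_nonneg_left hl s2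
      _ ≤ k0 * F := by rw [mul_one]; exact s1
  have u2 : (2 * C + 6 + 4 * n * (C + 1) + 18 * k0 + 10 * n) * F =
      (2 * C + 6 + 4 * n * (C + 1) + 17 * k0 + 10 * n) * F + k0 * F := by ring
  rw [u2]
  linarith

end

/-- **(LF)** -/
theorem lf_stmt : LFStmt := by
  intro n d K K' c k0 k1 C₁ C
  refine ⟨14 + 3 * (k0 + k1 * d) + 3 * k1 + 6 * (k1 * k0) + (k0 + k1) * (2 * (d + 5)) +
        k1 * (2 * (5 + 2 * d + 5 * k0) + |C|) + k1 * (2 * (3 + 3 * k0) + |C|) +
        (2 * |C| + 4 * n * (|C| + 1) + 14 * (k0 + k1) + 10 * n) + k1, by positivity, ?_⟩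
  intro D J a₀ w₀ z M w i j r r2 r' r'' y a X th lam gam κ q E P S ys gs H
  have hC : |C| = C := abs_of_nonneg (by linarith [H.Cg])
  rw [hC, Pool.P546.err_F]
  obtain ⟨F, hF⟩ : ∃ F : ℝ, F = (1 + κ) * z + X * Pb q (fun ω => ¬ E ω) := ⟨_, rfl⟩
  rw [← hF]
  have h1 := lf_key H hF
  refine h1.trans (add_le_add ?_ le_rfl)
  refine CH_mono_cond H.ok.isLaw.nonneg ?_
  intro ω ω' _ _ e
  exact Prod.ext (Prod.ext_iff.1 e).2 (Prod.ext_iff.1 e).1

/-- **(YF)** -/
theorem yf_stmt : YFStmt := by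
  intro n d K K' c k0 k1 C₁ C
  refine ⟨2 * |C| + 6 + 4 * n * (|C| + 1) + 18 * k0 + 10 * n, by positivity, ?_⟩
  intro D J a₀ w₀ z M w i j r r2 r' r'' y a X th lam gam κ q E P S ys gs H
  have hC : |C| = C := abs_of_nonneg (by linarith [H.Cg])
  rw [hC, Pool.P546.err_F]
  obtain ⟨F, hF⟩ : ∃ F : ℝ, F = (1 + κ) * z + X * Pb q (fun ω => ¬ E ω) := ⟨_, rfl⟩
  rw [← hF]
  exact yf_key H hF

end Pool.TC97
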