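import Pool.Agent.H97.TC.Bas
import Pool.Agent.H46.P5.Ful

/-!
# TC: few values on a large event
-/

set_option autoImplicit false

namespace Pool.TC97

open Finset Real
open Pool.Agent.H49.Ent Pool.Agent.H32.Dense Pool.STAT Pool.MIC Pool.TC
open Pool.STK hiding bb
open Pool.P4 (t0 rt pp ze zt z0 cl1 dg dgp Ry cb LLC tq)
open Pool.BFL (Pb)
open Pool.P546 (few_law dig_law ev_law full_ev of_ev mi_ev mi_part lf_core rcls lcls few_two
  fl_sub Ry_one' div_2R dgp_val dg_val fl_near sum_flt sum_near quo_sub)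

/-! ### Digits -/

/-- The size of a digit. -/
noncomputable def un (z X : ℕ) (C : ℝ) : ℝ := 2 * Ry z C / 2 ^ X

theorem un_pos (z X : ℕ) (C : ℝ) : 0 < un z X C := by
  unfold un Ry
  positivity

theorem un_mul (z X : ℕ) (C : ℝ) : 2 ^ X / (2 * Ry z C) * un z X C = 1 := by
  unfold un Ry
  have : (0 : ℝ) < exp (C * z) := Real.exp_pos _
  field_simp

theorem one_le_un {z X : ℕ} {C : ℝ} (hC : 1 ≤ C) : 1 / 2 ^ X * Ry z C ≤ un z X C := by
  have hR := Ry_one' (z := z) hC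
  unfold un
  rw [div_mul_eq_mul_div]
  refine div_le_div_of_nonneg_right ?_ (by positivity)
  linarith

/-- Numbers with the same digits. -/
theorem dgp_inv {z X : ℕ} {C x x' : ℝ} (hx : |x| ≤ Ry z C) (hx' : |x'| ≤ Ry z C)
    (h : dgp X ((x + Ry z C) / (2 * Ry z C)) = dgp X ((x' + Ry z C) / (2 * Ry z C))) :
    |x - x'| ≤ 2 * un z X C := by
  have hR : 0 < Ry z C := Real.exp_pos _
  have h1 := dgp_val (X := X) hR hx
  have h2 := dgp_val (X := X) hR hx'
  rw [h] at h1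
  unfold un
  obtain ⟨R, hRR⟩ : ∃ R, R = Ry z C := ⟨_, rfl⟩
  obtain ⟨N, hNN⟩ : ∃ N : ℝ, N = 2 ^ X := ⟨_, rfl⟩
  have hN : 0 < N := by rw [hNN]; positivity
  obtain ⟨m, hm⟩ : ∃ m : ℝ, m = (dgp X ((x' + Ry z C) / (2 * Ry z C)) : ℝ) := ⟨_, rfl⟩
  rw [← hm, ← hNN, ← hRR] at h1 h2
  rw [← hRR] at hR
  rw [← hNN, ← hRR]
  have t1 : N * ((x + R) / (2 * R)) - N * ((x' + R) / (2 * R)) = N / (2 * R) * (x - x') := by
    field_simp
    ring
  have t2 : |N / (2 * R) * (x - x')| ≤ 2 := by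
    rw [← t1, abs_le]
    rw [abs_le] at h1 h2
    constructor <;> linarith only [h1.1, h1.2, h2.1, h2.2]
  rw [abs_mul, abs_of_pos (by positivity : 0 < N / (2 * R))] at t2
  have t3 : N / (2 * R) * (2 * (2 * R / N)) = 2 := by field_simp
  exact le_of_mul_le_mul_left (t2.trans (le_of_eq t3.symm)) (by positivity)

theorem dg_inv {z X : ℕ} {C x x' : ℝ} (hx : |x| ≤ Ry z C) (hx' : |x'| ≤ Ry z C)
    (h : dg X (x / (2 * Ry z C)) = dg X (x' / (2 * Ry z C))) :
    |x - x'| ≤ 2 * un z X C := by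
  have hR : 0 < Ry z C := Real.exp_pos _
  have h1 := dg_val (X := X) (div_2R hx)
  have h2 := dg_val (X := X) (div_2R hx')
  rw [h] at h1
  unfold un
  obtain ⟨R, hRR⟩ : ∃ R, R = Ry z C := ⟨_, rfl⟩
  obtain ⟨N, hNN⟩ : ∃ N : ℝ, N = 2 ^ X := ⟨_, rfl⟩
  have hN : 0 < N := by rw [hNN]; positivity
  obtain ⟨m, hm⟩ : ∃ m : ℝ, m = (dg X (x' / (2 * Ry z C)) : ℝ) := ⟨_, rfl⟩
  rw [← hm, ← hNN, ← hRR] at h1 h2
  rw [← hRR] at hR
  rw [← hNN, ← hRR]
  have t1 : N * (x / (2 * R)) - N * (x' / (2 * R)) = N / (2 * R) * (x - x') := by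
    field_simp
  have t2 : |N / (2 * R) * (x - x')| ≤ 2 := by
    rw [← t1, abs_le]
    rw [abs_le] at h1 h2
    constructor <;> linarith only [h1.1, h1.2, h2.1, h2.2]
  rw [abs_mul, abs_of_pos (by positivity : 0 < N / (2 * R))] at t2
  have t3 : N / (2 * R) * (2 * (2 * R / N)) = 2 := by field_simp
  exact le_of_mul_le_mul_left (t2.trans (le_of_eq t3.symm)) (by positivity)

theorem fl_inv {X : ℕ} {x x' : ℝ} (h : ⌊(2 : ℝ) ^ X * x⌋ = ⌊(2 : ℝ) ^ X * x'⌋) :
    |x - x'| ≤ 1 / 2 ^ X := by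
  have h1 := (Int.abs_sub_lt_one_of_floor_eq_floor h).le
  rw [← mul_sub, abs_mul, abs_of_pos (by positivity : (0 : ℝ) < 2 ^ X)] at h1
  rw [le_div_iff₀ (by positivity), mul_comm]
  exact h1

theorem un_quo {z X : ℕ} {C x x' m : ℝ} (h : |x - x'| ≤ m * un z X C) :
    2 ^ X * |(x - x') / (2 * Ry z C)| ≤ m := by
  have hR : 0 < Ry z C := Real.exp_pos _
  rw [abs_div, abs_of_pos (by linarith : 0 < 2 * Ry z C)]
  calc 2 ^ X * (|x - x'| / (2 * Ry z C)) = 2 ^ X / (2 * Ry z C) * |x - x'| := by ring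
    _ ≤ 2 ^ X / (2 * Ry z C) * (m * un z X C) := mul_le_mul_of_nonneg_left h (by positivity)
    _ = m * (2 ^ X / (2 * Ry z C) * un z X C) := by ring
    _ = m := by rw [un_mul, mul_one]

/-- The digits of near numbers. -/
theorem dgp_of {z X : ℕ} {C x x' m : ℝ} (h : |x - x'| ≤ m * un z X C) :
    |((dgp X ((x + Ry z C) / (2 * Ry z C)) - dgp X ((x' + Ry z C) / (2 * Ry z C)) : ℤ) : ℝ)| ≤
      m + 2 := by
  refine Pool.P4E.dgp_sub ?_
  rw [← sub_div, add_sub_add_right_eq_sub]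
  exact un_quo h

theorem dg_of {z X : ℕ} {C x x' m : ℝ} (h : |x - x'| ≤ m * un z X C) :
    |((dg X (x / (2 * Ry z C)) - dg X (x' / (2 * Ry z C)) : ℤ) : ℝ)| ≤ m + 2 := by
  refine Pool.P4E.dg_sub ?_
  rw [← sub_div]
  exact un_quo h

section

variable {D : NDat2} {n d K K' J a₀ w₀ z M w i j r r2 r' r'' y a X : ℕ} {th : ℝ}
  {lam gam : ℕ → ℝ} {κ C₁ C : ℝ} {q : D.Ω → ℝ} {E : D.Ω → Prop} {P : D.Γ × D.Γ → ℕ → PN}
  {S : Slo D} {c k0 k1 : ℕ} {ys : Fin (k0 + k1) → ℕ} {gs : Fin c → ℕ}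

/-- The heights of the moving slow coordinates over their own sheet, digits. -/
noncomputable def Lav (D : NDat2) (n z i j r X : ℕ) (th : ℝ) (gam : ℕ → ℝ) (C : ℝ)
    (P : D.Γ × D.Γ → ℕ → PN) (S : Slo D) {k0 k1 : ℕ} (ys : Fin (k0 + k1) → ℕ) (ω : D.Ω)
    (l : Fin k1) : ℤ :=
  ⌊2 ^ X * (la D n i j r th gam P S.El ω (ys (Fin.natAdd k0 l)) / (2 * Ry z C))⌋

variable (H : Hyp D n d K K' J a₀ w₀ z M w i j r r2 r' r'' y a X th lam gam κ C₁ C q E P S ys gs)

include H

theorem tau_un : exp (C * z) / 2 ^ (y * z) ≤ un z X C := by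
  have h1 := tauX H
  have h2 := one_le_un (z := z) (X := X) H.Cg
  have h3 := Ry_one' (z := z) H.Cg
  have hN : (0 : ℝ) < 2 ^ X := by positivity
  have h4 : exp (C * z) / 2 ^ (y * z) ≤ 1 / 2 ^ X := by
    rw [le_div_iff₀ hN, mul_comm]
    exact h1
  have h5 : 1 / (2 : ℝ) ^ X * 1 ≤ 1 / 2 ^ X * Ry z C :=
    mul_le_mul_of_nonneg_left h3 (by positivity)
  linarith

/-- The coordinates at the exact time, two samples with the same time. -/
theorem path_sub {ω ω' : D.Ω} (p : 0 < cond q E True ω) (p' : 0 < cond q E True ω')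
    (hT : D.T ω = D.T ω') {l : ℕ} (hl : 1 ≤ l) (hl' : l ≤ n) {x x' : ℝ}
    (h0 : |z0 D J w i j r P ω l - z0 D J w i j r P ω' l| ≤ x)
    (hs : ∀ s, 1 ≤ s → s ≤ d →
      |bs D J w i j r d P s ω l - bs D J w i j r d P s ω' l| ≤ x') :
    |ze D i j r P ω l - ze D i j r P ω' l| ≤ x + d * x' + 2 * un z X C := by
  obtain ⟨g1, g2⟩ := ppos H p
  obtain ⟨g3, g4⟩ := ppos H p'
  have hτ := tau_un H
  have s1 := H.geo.path ω g1 g2 l hl hl' w H.w1 H.w2
  have s2 := H.geo.path ω' g3 g4 l hl hl' w H.w1 H.w2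
  have hr := rt_eq H hT
  have hr1 := (Pool.P4.rt_near (D := D) (J := J) (w := w) (X := X) (ω := ω)
    (H.ok.X_zero ω) (wXJ H)).1
  rw [← hr] at s2
  have s3 : |∑ s ∈ Finset.Icc 1 d, rt D J w ω ^ s * bs D J w i j r d P s ω l -
      ∑ s ∈ Finset.Icc 1 d, rt D J w ω ^ s * bs D J w i j r d P s ω' l| ≤ d * x' := by
    rw [← Finset.sum_sub_distrib]
    calc _ ≤ ∑ s ∈ Finset.Icc 1 d, |rt D J w ω ^ s * bs D J w i j r d P s ω l -
          rt D J w ω ^ s * bs D J w i j r d P s ω' l| := Finset.abs_sum_le_sum_abs _ _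
      _ ≤ ∑ _s ∈ Finset.Icc 1 d, x' := by
          refine Finset.sum_le_sum fun s hs' => ?_
          rw [Finset.mem_Icc] at hs'
          rw [← mul_sub, abs_mul, abs_pow]
          have a1 := hs s hs'.1 hs'.2
          calc _ ≤ 1 * x' := mul_le_mul (pow_le_one₀ (abs_nonneg _) hr1) a1 (abs_nonneg _)
                (by norm_num)
            _ = x' := one_mul _
      _ = d * x' := by
          rw [Finset.sum_const, Nat.card_Icc, nsmul_eq_mul]
          simp
  obtain ⟨τ, hτ'⟩ : ∃ τ, τ = exp (C * z) / 2 ^ (y * z) := ⟨_, rfl⟩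
  rw [← hτ'] at hτ s1 s2
  rw [abs_le] at s1 s2 s3 h0 ⊢
  constructor <;> linarith only [s1.1, s1.2, s2.1, s2.2, s3.1, s3.2, h0.1, h0.2, hτ]

/-- The constant coordinates, two samples. -/
theorem slow_sub {ω ω' : D.Ω} (p : 0 < cond q E True ω) (p' : 0 < cond q E True ω')
    {l : ℕ} (hl : sl0 th gam n l) {x : ℝ}
    (h0 : |z0 D J w i j r P ω l - z0 D J w i j r P ω' l| ≤ x) :
    |ze D i j r P ω l - ze D i j r P ω' l| ≤ x + 2 * un z X C := by
  obtain ⟨g1, g2⟩ := ppos H p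
  obtain ⟨g3, g4⟩ := ppos H p'
  have hτ := tau_un H
  have s1 := (H.geo.slow0 ω g1 g2 l hl w H.w1 H.w2).1
  have s2 := (H.geo.slow0 ω' g3 g4 l hl w H.w1 H.w2).1
  rw [abs_le] at s1 s2 h0 ⊢
  constructor <;> linarith only [s1.1, s1.2, s2.1, s2.2, h0.1, h0.2, hτ]

theorem la_eq (ω : D.Ω) (l : Fin k1) : la D n i j r th gam P S.El ω (ys (Fin.natAdd k0 l)) =
    ze D i j r P ω (ys (Fin.natAdd k0 l)) - ∑ b : Fin k0,
      S.El ω (ys (Fin.natAdd k0 l)) (ys (Fin.castAdd k1 b)) *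
        ze D i j r P ω (ys (Fin.castAdd k1 b)) := by
  unfold la hs
  rw [sum_flt (p := sl0 th gam n) (f := fun b : Fin k0 => ys (Fin.castAdd k1 b)) H.ys0
    (fun b => (H.ys0 b).1.2.1) (fun b b' hh => Fin.castAdd_injective k0 k1 (H.ys_in hh))
    H.ys_on0 (fun k => S.El ω (ys (Fin.natAdd k0 l)) k * ze D i j r P ω k)]

/-- The heights over the own sheet, two samples. -/
theorem la_sub {ω ω' : D.Ω} (p : 0 < cond q E True ω) (p' : 0 < cond q E True ω')
    (l : Fin k1) {x : ℝ} (hE : ∀ b : Fin k0, Elv D X S ys ω l b = Elv D X S ys ω' l b)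
    (hz : ∀ b : Fin k0, |ze D i j r P ω (ys (Fin.castAdd k1 b)) -
      ze D i j r P ω' (ys (Fin.castAdd k1 b))| ≤ x * un z X C) :
    |(la D n i j r th gam P S.El ω (ys (Fin.natAdd k0 l)) -
      la D n i j r th gam P S.El ω' (ys (Fin.natAdd k0 l))) -
      (ze D i j r P ω (ys (Fin.natAdd k0 l)) - ze D i j r P ω' (ys (Fin.natAdd k0 l)))| ≤
      k0 * ((1 + x) * Ry z C * un z X C) := by
  obtain ⟨g1, g2⟩ := ppos H p
  obtain ⟨g3, g4⟩ := ppos H p'
  rw [la_eq H, la_eq H]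
  have hR := Ry_one' (z := z) H.Cg
  have hu := un_pos z X C
  have hu1 := one_le_un (z := z) (X := X) H.Cg
  have s1 : |∑ b : Fin k0, S.El ω (ys (Fin.natAdd k0 l)) (ys (Fin.castAdd k1 b)) *
      ze D i j r P ω (ys (Fin.castAdd k1 b)) - ∑ b : Fin k0,
      S.El ω' (ys (Fin.natAdd k0 l)) (ys (Fin.castAdd k1 b)) *
        ze D i j r P ω' (ys (Fin.castAdd k1 b))| ≤ k0 * ((1 + x) * Ry z C * un z X C) := by
    refine sum_near fun b => ?_
    have h1 : |S.El ω (ys (Fin.natAdd k0 l)) (ys (Fin.castAdd k1 b)) -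
        S.El ω' (ys (Fin.natAdd k0 l)) (ys (Fin.castAdd k1 b))| ≤ 1 / 2 ^ X := fl_inv (hE b)
    have h2 : |ze D i j r P ω (ys (Fin.castAdd k1 b))| ≤ Ry z C :=
      H.geo.bz ω g1 g2 _ (ys_rng H (Fin.castAdd k1 b)).1 (ys_rng H (Fin.castAdd k1 b)).2
    have h3 : |S.El ω' (ys (Fin.natAdd k0 l)) (ys (Fin.castAdd k1 b))| ≤ Ry z C :=
      H.geo.bEl ω' _ _
    have h4 := Pool.P546.prod_near h1 h2 h3 (hz b)
    have h5 : Ry z C * (x * un z X C) + 1 * un z X C ≤ (1 + x) * Ry z C * un z X C := by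
      have : 1 * un z X C ≤ Ry z C * un z X C := mul_le_mul_of_nonneg_right hR hu.le
      linarith
    linarith
  rw [abs_le] at s1 ⊢
  constructor <;> linarith only [s1.1, s1.2]

/-! ### Few values -/

/-- The constant slow coordinates, at `L2`. -/
theorem y0_few : CH (cond q E True) (y0v D J w z i j r X C P ys)
    (fun ω => (D.lft i j r2 r 1 ω, (cb D J w i j r ω, D.T ω))) ≤ k0 * Real.log (2 * 3 + 1) := by
  have h := few_law (plaw H) (y0v D J w z i j r X C P ys)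
    (fun ω => (D.lft i j r2 r 1 ω, (cb D J w i j r ω, D.T ω))) (m := 3) (by
      intro ω ω' p p' e b
      obtain ⟨e1, e2, e3, e4⟩ := lcls e
      obtain ⟨g1, g2⟩ := ppos H p
      obtain ⟨g3, g4⟩ := ppos H p'
      have h1 := ((H.geo.left2 ω ω' g1 g3 g2 g4 e1 e3 w H.w1 H.w2 e4).1 _ (H.ys0 b)).trans
        (tau_un H)
      have h2 := dgp_of (z := z) (X := X) (C := C) (m := 1) (by rw [one_mul]; exact h1)
      unfold y0v yv
      linarith)
  rwa [Fintype.card_fin] at h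

/-- The coefficients of the moving slow coordinates, at `L2`. -/
theorem mv_few : CH (cond q E True) (mv D J w z i j r d X C P ys)
    (fun ω => (D.lft i j r2 r 1 ω, (cb D J w i j r ω, D.T ω))) ≤
      k1 * d * Real.log (2 * 3 + 1) := by
  refine few_two (plaw H) _ _ ?_
  intro ω ω' p p' e l s
  obtain ⟨e1, e2, e3, e4⟩ := lcls e
  obtain ⟨g1, g2⟩ := ppos H p
  obtain ⟨g3, g4⟩ := ppos H p'
  have h1 := ((H.geo.left2 ω ω' g1 g3 g2 g4 e1 e3 w H.w1 H.w2 e4).2 _ (H.ys1 l) ((s : ℕ) + 1)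
    (by omega) (by have := s.2; omega)).trans (tau_un H)
  have h2 := dg_of (z := z) (X := X) (C := C) (m := 1) (by rw [one_mul]; exact h1)
  unfold mv
  linarith

omit H in
/-- The digits of near slopes. -/
theorem fl_of {x x' : ℝ} (h : 2 ^ X * |x - x'| ≤ 1) :
    |((⌊(2 : ℝ) ^ X * x⌋ - ⌊(2 : ℝ) ^ X * x'⌋ : ℤ) : ℝ)| ≤ 3 := by
  have h2 : |(2 : ℝ) ^ X * x - 2 ^ X * x'| ≤ 1 := by
    rw [← mul_sub, abs_mul, abs_of_pos (by positivity : (0 : ℝ) < 2 ^ X)]
    exact h
  have := fl_sub h2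
  linarith

/-- The own slopes of the moving slow coordinates, at `R2` and at `R''`. -/
theorem Elv_few {r₁ : ℕ} (hr : r₁ = r2 ∨ r₁ = r'') : CH (cond q E True) (Elv D X S ys)
    (fun ω => (D.rgt i j r₁ r 1 ω, (cb D J w i j r ω, D.T ω))) ≤
      k1 * k0 * Real.log (2 * 3 + 1) := by
  refine few_two (plaw H) _ _ ?_
  intro ω ω' p p' e l b
  obtain ⟨e1, e2, e3⟩ := rcls e
  obtain ⟨g1, g2⟩ := ppos H p
  obtain ⟨g3, g4⟩ := ppos H p'
  have hs := s_of H g1 g3 e3 e2
  have h1 : |S.El ω (ys (Fin.natAdd k0 l)) (ys (Fin.castAdd k1 b)) -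
      S.El ω' (ys (Fin.natAdd k0 l)) (ys (Fin.castAdd k1 b))| ≤
      exp (C * z) / 2 ^ (y * z) := by
    rcases hr with h | h
    · rw [h] at hs
      exact (H.geo.leaf ω ω' g1 g3 g2 g4 e1 e2 hs _ (H.ys1 l)).2 _ (H.ys0 b)
    · rw [h] at hs
      exact (H.geo.right2 ω ω' g1 g3 g2 g4 e1 e2 hs).2 _ (H.ys1 l) _ (H.ys0 b)
  exact fl_of ((mul_le_mul_of_nonneg_left h1 (by positivity)).trans (tauX H))

/-- The heights over the own sheet, at `R2`. -/
theorem Lav_few : CH (cond q E True) (Lav D n z i j r X th gam C P S ys)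
    (fun ω => (D.rgt i j r2 r 1 ω, (cb D J w i j r ω, D.T ω))) ≤
      k1 * Real.log (2 * 3 + 1) := by
  have h := few_law (plaw H) (Lav D n z i j r X th gam C P S ys)
    (fun ω => (D.rgt i j r2 r 1 ω, (cb D J w i j r ω, D.T ω))) (m := 3) (by
      intro ω ω' p p' e l
      obtain ⟨e1, e2, e3⟩ := rcls e
      obtain ⟨g1, g2⟩ := ppos H p
      obtain ⟨g3, g4⟩ := ppos H p'
      have h1 := ((H.geo.leaf ω ω' g1 g3 g2 g4 e1 e2 (s_of H g1 g3 e3 e2) _ (H.ys1 l)).1).trans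
        (tau_un H)
      have h2 := un_quo (z := z) (X := X) (C := C) (m := 1) (by rw [one_mul]; exact h1)
      rw [sub_div] at h2
      exact fl_of h2)
  rwa [Fintype.card_fin] at h

/-- The slow coordinates at the exact time, at `L''`. -/
theorem zt_few : CH (cond q E True) (ztv D z i j r X C P ys)
    (fun ω => (D.lft i j r'' r 1 ω, (cb D J w i j r ω, D.T ω))) ≤
      (k0 + k1) * Real.log (2 * (d + 5) + 1) := by
  have h := few_law (plaw H) (ztv D z i j r X C P ys)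
    (fun ω => (D.lft i j r'' r 1 ω, (cb D J w i j r ω, D.T ω))) (m := d + 5) (by
      intro ω ω' p p' e b
      obtain ⟨e1, e2, e3, e4⟩ := lcls e
      obtain ⟨g1, g2⟩ := ppos H p
      obtain ⟨g3, g4⟩ := ppos H p'
      obtain ⟨h1, h2⟩ := H.geo.left3 ω ω' g1 g3 g2 g4 e1 e3 w H.w1 H.w2 e4 _ (ys_rng H b).1
        (ys_rng H b).2
      have h3 := path_sub H p p' e2 (ys_rng H b).1 (ys_rng H b).2 (h1.trans (tau_un H))
        (fun s hs hs' => (h2 s hs hs').trans (tau_un H))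
      have h4 : un z X C + d * un z X C + 2 * un z X C = (d + 3) * un z X C := by ring
      rw [h4] at h3
      have h5 := dgp_of h3
      unfold ztv
      linarith)
  rw [Fintype.card_fin] at h
  push_cast at h
  exact h

/-- The heights over the own sheet, given the positions at the left end, the slopes and the
data. -/
theorem Lav_of : CH (cond q E True) (Lav D n z i j r X th gam C P S ys)
    (fun ω => (y1v D J w z i j r X C P ys ω, (Elv D X S ys ω,
      ((y0v D J w z i j r X C P ys ω, mv D J w z i j r d X C P ys ω),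
        (cb D J w i j r ω, D.T ω))))) ≤
      k1 * Real.log (2 * ((5 + 2 * d + 5 * k0) * Ry z C) + 1) := by
  have h := few_law (plaw H) (Lav D n z i j r X th gam C P S ys)
    (fun ω => (y1v D J w z i j r X C P ys ω, (Elv D X S ys ω,
      ((y0v D J w z i j r X C P ys ω, mv D J w z i j r d X C P ys ω),
        (cb D J w i j r ω, D.T ω))))) (m := (5 + 2 * d + 5 * k0) * Ry z C) (by
      intro ω ω' p p' e l
      obtain ⟨g1, g2⟩ := ppos H p
      obtain ⟨g3, g4⟩ := ppos H p'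
      have e1 := Prod.ext_iff.1 e
      have e2 := Prod.ext_iff.1 e1.2
      have e3 := Prod.ext_iff.1 e2.2
      have e4 := Prod.ext_iff.1 e3.1
      have eT : D.T ω = D.T ω' := (Prod.ext_iff.1 e3.2).2
      have b1 := H.geo.bt ω g1 g2
      have b2 := H.geo.bt ω' g3 g4
      have rl := ys_rng H (Fin.natAdd k0 l)
      have h1 : |z0 D J w i j r P ω (ys (Fin.natAdd k0 l)) -
          z0 D J w i j r P ω' (ys (Fin.natAdd k0 l))| ≤ 2 * un z X C :=
        dgp_inv (b1 _ rl.1 rl.2 w H.w1 H.w2).1 (b2 _ rl.1 rl.2 w H.w1 H.w2).1 (congrFun e1.1 l)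
      have h2 : ∀ s, 1 ≤ s → s ≤ d → |bs D J w i j r d P s ω (ys (Fin.natAdd k0 l)) -
          bs D J w i j r d P s ω' (ys (Fin.natAdd k0 l))| ≤ 2 * un z X C := by
        intro s hs hs'
        have e5 := congrFun (congrFun e4.2 l) ⟨s - 1, by omega⟩
        have e6 : s - 1 + 1 = s := by omega
        unfold mv at e5
        simp only [e6] at e5
        exact dg_inv ((b1 _ rl.1 rl.2 w H.w1 H.w2).2 s hs hs')
          ((b2 _ rl.1 rl.2 w H.w1 H.w2).2 s hs hs') e5
      have h3 := path_sub H p p' eT rl.1 rl.2 h1 h2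
      have h4 : ∀ b : Fin k0, |ze D i j r P ω (ys (Fin.castAdd k1 b)) -
          ze D i j r P ω' (ys (Fin.castAdd k1 b))| ≤ 4 * un z X C := by
        intro b
        have rb := ys_rng H (Fin.castAdd k1 b)
        have a1 : |z0 D J w i j r P ω (ys (Fin.castAdd k1 b)) -
            z0 D J w i j r P ω' (ys (Fin.castAdd k1 b))| ≤ 2 * un z X C :=
          dgp_inv (b1 _ rb.1 rb.2 w H.w1 H.w2).1 (b2 _ rb.1 rb.2 w H.w1 H.w2).1
            (congrFun e4.1 b)
        have a2 := slow_sub H p p' (H.ys0 b) a1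
        linarith
      have h5 := la_sub H p p' l (fun b => congrFun (congrFun e2.1 l) b) h4
      have hR := Ry_one' (z := z) H.Cg
      have hu := un_pos z X C
      have hd : (0 : ℝ) ≤ d := Nat.cast_nonneg _
      have hk : (0 : ℝ) ≤ k0 := Nat.cast_nonneg _
      have h6 : |la D n i j r th gam P S.El ω (ys (Fin.natAdd k0 l)) -
          la D n i j r th gam P S.El ω' (ys (Fin.natAdd k0 l))| ≤
          ((4 + 2 * d + 5 * k0) * Ry z C) * un z X C := by
        have t1 : (4 + 2 * (d : ℝ)) * un z X C * 1 ≤ (4 + 2 * d) * un z X C * Ry z C :=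
          mul_le_mul_of_nonneg_left hR (by positivity)
        have t2 : ((4 + 2 * d + 5 * k0) * Ry z C) * un z X C =
            (4 + 2 * d) * un z X C * Ry z C + k0 * ((1 + 4) * Ry z C * un z X C) := by ring
        have t3 : (4 + 2 * (d : ℝ)) * un z X C * 1 = 2 * un z X C + d * (2 * un z X C) +
            2 * un z X C := by ring
        rw [t3] at t1
        rw [t2]
        rw [abs_le] at h3 h5 ⊢
        constructor <;> linarith only [h3.1, h3.2, h5.1, h5.2, t1]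
      have h7 := un_quo h6
      rw [sub_div] at h7
      have h8 : |(2 : ℝ) ^ X * (la D n i j r th gam P S.El ω (ys (Fin.natAdd k0 l)) /
          (2 * Ry z C)) - 2 ^ X * (la D n i j r th gam P S.El ω' (ys (Fin.natAdd k0 l)) /
          (2 * Ry z C))| ≤ (4 + 2 * d + 5 * k0) * Ry z C := by
        rw [← mul_sub, abs_mul, abs_of_pos (by positivity : (0 : ℝ) < 2 ^ X)]
        exact h7
      have h9 := fl_sub h8
      unfold Lav
      refine h9.trans ?_
      have : (5 + 2 * (d : ℝ) + 5 * k0) * Ry z C = (4 + 2 * d + 5 * k0) * Ry z C + Ry z C := by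
        ring
      rw [this]
      linarith)
  rwa [Fintype.card_fin] at h

/-- The moving slow coordinates at the exact time, given the heights over the own sheet. -/
theorem Lt_of : CH (cond q E True) (fun ω (l : Fin k1) => ztv D z i j r X C P ys ω (Fin.natAdd k0 l))
    (fun ω => (Lav D n z i j r X th gam C P S ys ω,
      ((fun b : Fin k0 => ztv D z i j r X C P ys ω (Fin.castAdd k1 b)),
        (Elv D X S ys ω, (cb D J w i j r ω, D.T ω))))) ≤
      k1 * Real.log (2 * ((3 + 3 * k0) * Ry z C) + 1) := by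
  have h := few_law (plaw H) (fun ω (l : Fin k1) => ztv D z i j r X C P ys ω (Fin.natAdd k0 l))
    (fun ω => (Lav D n z i j r X th gam C P S ys ω,
      ((fun b : Fin k0 => ztv D z i j r X C P ys ω (Fin.castAdd k1 b)),
        (Elv D X S ys ω, (cb D J w i j r ω, D.T ω))))) (m := (3 + 3 * k0) * Ry z C) (by
      intro ω ω' p p' e l
      obtain ⟨g1, g2⟩ := ppos H p
      obtain ⟨g3, g4⟩ := ppos H p'
      have e1 := Prod.ext_iff.1 e
      have e2 := Prod.ext_iff.1 e1.2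
      have e3 := Prod.ext_iff.1 e2.2
      have hR := Ry_one' (z := z) H.Cg
      have hu := un_pos z X C
      have hk : (0 : ℝ) ≤ k0 := Nat.cast_nonneg _
      have h4 : ∀ b : Fin k0, |ze D i j r P ω (ys (Fin.castAdd k1 b)) -
          ze D i j r P ω' (ys (Fin.castAdd k1 b))| ≤ 2 * un z X C := by
        intro b
        have rb := ys_rng H (Fin.castAdd k1 b)
        exact dgp_inv (H.geo.bz ω g1 g2 _ rb.1 rb.2) (H.geo.bz ω' g3 g4 _ rb.1 rb.2)
          (congrFun e2.1 b)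
      have h5 := la_sub H p p' l (fun b => congrFun (congrFun e3.1 l) b) h4
      have h6 : |la D n i j r th gam P S.El ω (ys (Fin.natAdd k0 l)) -
          la D n i j r th gam P S.El ω' (ys (Fin.natAdd k0 l))| ≤ un z X C := by
        have a1 := fl_inv (congrFun e1.1 l)
        rw [← sub_div, abs_div, abs_of_pos (by linarith : 0 < 2 * Ry z C),
          div_le_iff₀ (by linarith)] at a1
        refine a1.trans (le_of_eq ?_)
        unfold un
        ring
      have h7 : |ze D i j r P ω (ys (Fin.natAdd k0 l)) -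
          ze D i j r P ω' (ys (Fin.natAdd k0 l))| ≤ ((1 + 3 * k0) * Ry z C) * un z X C := by
        have t1 : un z X C * 1 ≤ un z X C * Ry z C := mul_le_mul_of_nonneg_left hR hu.le
        have t2 : ((1 + 3 * k0) * Ry z C) * un z X C =
            un z X C * Ry z C + k0 * ((1 + 2) * Ry z C * un z X C) := by ring
        rw [t2]
        rw [abs_le] at h5 h6 ⊢
        constructor <;> linarith only [h5.1, h5.2, h6.1, h6.2, t1]
      have h8 := dgp_of h7
      unfold ztv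
      refine h8.trans ?_
      have : (3 + 3 * (k0 : ℝ)) * Ry z C = (1 + 3 * k0) * Ry z C + 2 * Ry z C := by ring
      rw [this]
      linarith)
  rwa [Fintype.card_fin] at h

/-- The constant coordinates at the exact time, given the positions at the left end. -/
theorem Yt_of : CH (cond q E True) (ztv D z i j r X C P (fun b : Fin k0 => ys (Fin.castAdd k1 b)))
    (fun ω => (y0v D J w z i j r X C P ys ω, (cb D J w i j r ω, D.T ω))) ≤
      k0 * Real.log (2 * 6 + 1) := by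
  have h := few_law (plaw H) (ztv D z i j r X C P (fun b : Fin k0 => ys (Fin.castAdd k1 b)))
    (fun ω => (y0v D J w z i j r X C P ys ω, (cb D J w i j r ω, D.T ω))) (m := 6) (by
      intro ω ω' p p' e b
      obtain ⟨g1, g2⟩ := ppos H p
      obtain ⟨g3, g4⟩ := ppos H p'
      have rb := ys_rng H (Fin.castAdd k1 b)
      have a1 : |z0 D J w i j r P ω (ys (Fin.castAdd k1 b)) -
          z0 D J w i j r P ω' (ys (Fin.castAdd k1 b))| ≤ 2 * un z X C :=
        dgp_inv (H.geo.bt ω g1 g2 _ rb.1 rb.2 w H.w1 H.w2).1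
          (H.geo.bt ω' g3 g4 _ rb.1 rb.2 w H.w1 H.w2).1 (congrFun (Prod.ext_iff.1 e).1 b)
      have a2 := slow_sub H p p' (H.ys0 b) a1
      have a3 := dgp_of (z := z) (X := X) (C := C) (m := 4) (a2.trans (by linarith))
      unfold ztv
      linarith)
  rwa [Fintype.card_fin] at h

end

end Pool.TC97
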