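import Pool.Agent.H48.TC.Bas
import Pool.Agent.H89.P4.H2f

/-!
# TC: (H2)

After `Pool.Agent.H89.P4.H2` and `Pool.Agent.H89.P4.H2f`. The height over the own sheet and the own
slopes are functions of the visible label at `R`, the slow coordinates, their paths and the
coefficients of the group are functions of the closed context at `L`, up to `τ`.
-/

set_option autoImplicit false

namespace Pool.TC97

open Finset Real MvPolynomial
open Pool.Agent.H49.Ent Pool.Agent.H32.Dense Pool.STK Pool.STAT Pool.MIC.Frm Pool.MIC7 Pool.FRM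
open Pool.GSD Pool.POT Pool.TC
open Pool.BFL (Pb)
open Pool.P4 (t0 rt pp PthC FraC bb ze zt z0 cl1 dg dgp Ry cb LLC tq GoodS FrP err
  dg_near dg_abs dgp_near dgp_abs dg_lip dgp_lip c_up c_up1 Ry_pos rt_near aC aC_nonneg few_z sides
  MI_inner)

/-! ### Digits -/

theorem floor_two {a b : ℝ} (h : |a - b| ≤ 1) : |⌊a⌋ - ⌊b⌋| ≤ 2 := by
  have h1 := Int.floor_le a
  have h2 := Int.lt_floor_add_one a
  have h3 := Int.floor_le b
  have h4 := Int.lt_floor_add_one b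
  have h5 : ((|⌊a⌋ - ⌊b⌋| : ℤ) : ℝ) ≤ ((2 : ℤ) : ℝ) := by
    push_cast
    rw [abs_le] at h ⊢
    constructor <;> linarith [h.1, h.2]
  exact_mod_cast h5

theorem dgm_lip {X : ℕ} {m x y : ℝ} (hm : 0 < m) (h : 2 ^ X * |x - y| ≤ 1) :
    |dgm X m x - dgm X m y| ≤ 2 := by
  unfold dgm
  refine floor_two ?_
  rw [← mul_sub, ← mul_sub, abs_mul, abs_mul, abs_of_pos (by positivity : (0 : ℝ) < 2 ^ X),
    abs_of_pos hm]
  have h1 := Pool.P4.cl1_lip (x / m) (y / m)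
  rw [← sub_div, abs_div, abs_of_pos hm, le_div_iff₀ hm] at h1
  calc 2 ^ X * (m * |cl1 (x / m) - cl1 (y / m)|) =
        2 ^ X * (|cl1 (x / m) - cl1 (y / m)| * m) := by ring
    _ ≤ 2 ^ X * |x - y| := mul_le_mul_of_nonneg_left h1 (by positivity)
    _ ≤ 1 := h

theorem cl1_abs (x : ℝ) : |cl1 x| ≤ 1 := by
  unfold cl1
  rw [abs_le]
  exact ⟨le_max_left _ _, max_le (by norm_num) (min_le_left _ _)⟩

theorem dgm_abs {X m : ℕ} {x : ℝ} : |dgm X m x| ≤ m * 2 ^ X := by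
  unfold dgm
  have h1 := cl1_abs (x / m)
  rw [abs_le] at h1
  have hm : (0 : ℝ) ≤ m := Nat.cast_nonneg m
  have hX : (0 : ℝ) < 2 ^ X := by positivity
  have hmX : (0 : ℝ) ≤ 2 ^ X * m := by positivity
  obtain ⟨t, ht⟩ : ∃ t, t = cl1 (x / m) := ⟨_, rfl⟩
  rw [← ht] at h1 ⊢
  have e : (2 : ℝ) ^ X * (m * t) = (2 ^ X * m) * t := by ring
  rw [e]
  rw [abs_le]
  constructor
  · rw [Int.le_floor]
    push_cast
    have := mul_le_mul_of_nonneg_left h1.1 hmX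
    linarith
  · rw [← Int.lt_add_one_iff, Int.floor_lt]
    push_cast
    have := mul_le_mul_of_nonneg_left h1.2 hmX
    linarith

section

variable {D : NDat2} {n d K K' J a₀ w₀ z M w i j r r2 r' r'' y a X : ℕ} {th : ℝ}
  {lam gam : ℕ → ℝ} {κ C₁ C : ℝ} {q : D.Ω → ℝ} {E : D.Ω → Prop} {P : D.Γ × D.Γ → ℕ → PN}
  {S : Slo D} {c k0 k1 : ℕ} {ys : Fin (k0 + k1) → ℕ} {gs : Fin c → ℕ}

variable (H : Hyp D n d K K' J a₀ w₀ z M w i j r r2 r' r'' y a X th lam gam κ C₁ C q E P S ys gs)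

include H

theorem tau_div {R x x' : ℝ} (hR : 1 ≤ R) (h : |x - x'| ≤ exp (C * z) / 2 ^ (y * z)) :
    2 ^ X * |x / R - x' / R| ≤ 1 := by
  have h4 := H.tau
  have hR0 : 0 < R := by linarith
  rw [← sub_div, abs_div, abs_of_pos hR0]
  calc 2 ^ X * (|x - x'| / R) ≤ 2 ^ X * ((exp (C * z) / 2 ^ (y * z)) / 1) := by
        refine mul_le_mul_of_nonneg_left ?_ (by positivity)
        exact div_le_div₀ (by positivity) h (by norm_num) hR
    _ ≤ 1 := by rwa [div_one]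

/-- The height, two samples with the same visible label at `R`. -/
theorem hv_two {ω ω' : D.Ω} (hω : 0 < q ω) (hω' : 0 < q ω') (hE : E ω) (hE' : E ω')
    (hb : bb D i j r ω = bb D i j r ω') (hT : D.T ω = D.T ω')
    (hs : D.s (i - r') (j + r) ω = D.s (i - r') (j + r) ω') (u : Fin c) :
    |hv (k0 := k0) (k1 := k1) D z i j r X C P S gs n th gam ω u -
      hv (k0 := k0) (k1 := k1) D z i j r X C P S gs n th gam ω' u| ≤ ((2 : ℕ) : ℤ) := by
  have h3 := (H.geo.right ω ω' hω hω' hE hE' hb hT hs (gs u) (H.gs_gr u)).1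
  have hm : (0 : ℝ) < ((k0 + k1 + 1 : ℕ) : ℝ) := by positivity
  exact dgm_lip hm (tau_div H H.one_Rg h3)

/-- The own slopes, two samples with the same visible label at `R`. -/
theorem S_two {ω ω' : D.Ω} (hω : 0 < q ω) (hω' : 0 < q ω') (hE : E ω) (hE' : E ω')
    (hb : bb D i j r ω = bb D i j r ω') (hT : D.T ω = D.T ω')
    (hs : D.s (i - r') (j + r) ω = D.s (i - r') (j + r) ω') (u : Fin c) (b : Fin (k0 + k1)) :
    |Sv (c := c) (k0 := k0) (k1 := k1) D z X C S ys gs ω u b -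
      Sv (c := c) (k0 := k0) (k1 := k1) D z X C S ys gs ω' u b| ≤ ((2 : ℕ) : ℤ) := by
  have h3 := (H.geo.right ω ω' hω hω' hE hE' hb hT hs (gs u) (H.gs_gr u)).2 (ys b) (H.ys_sl b)
  have h4 := H.tau
  have hR := Rg_pos z C
  have hRy := Ry_pos z C
  refine dg_lip ?_
  have e1 : S.S ω (gs u) (ys b) * (2 * Ry z C) / Rg z C -
      S.S ω' (gs u) (ys b) * (2 * Ry z C) / Rg z C =
      (S.S ω (gs u) (ys b) - S.S ω' (gs u) (ys b)) * (2 * Ry z C / Rg z C) := by ring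
  rw [e1, abs_mul, abs_of_pos (by positivity : 0 < 2 * Ry z C / Rg z C)]
  calc 2 ^ X * (|S.S ω (gs u) (ys b) - S.S ω' (gs u) (ys b)| * (2 * Ry z C / Rg z C)) ≤
        2 ^ X * ((exp (C * z) / 2 ^ (y * z)) * 1) := by
        refine mul_le_mul_of_nonneg_left ?_ (by positivity)
        exact mul_le_mul h3 H.Ry_Rg (by positivity) (by positivity)
    _ ≤ 1 := by rwa [mul_one]

/-- The data of the line, two samples with the same closed context at `L`. -/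
theorem v_two {ω ω' : D.Ω} (hω : 0 < q ω) (hω' : 0 < q ω') (hE : E ω) (hE' : E ω')
    (hb : bb D i j r ω = bb D i j r ω') (hc : D.c (i + r') (j - r) ω = D.c (i + r') (j - r) ω')
    (hT : D.T ω / 2 ^ (J - w) = D.T ω' / 2 ^ (J - w)) :
    (∀ b, |yv D J w z i j r X C P ys ω b - yv D J w z i j r X C P ys ω' b| ≤ ((2 : ℕ) : ℤ)) ∧
    (∀ l s, |mv D J w z i j r d X C P ys ω l s - mv D J w z i j r d X C P ys ω' l s| ≤
      ((2 : ℕ) : ℤ)) ∧
    ∀ u s, |bev D J w z i j r d X C P gs ω u s - bev D J w z i j r d X C P gs ω' u s| ≤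
      ((2 : ℕ) : ℤ) := by
  obtain ⟨h3, h5⟩ := H.geo.left ω ω' hω hω' hE hE' hb hc w H.w1 H.w2 hT
  have hRy1 : 1 ≤ 2 * Ry z C := by
    have := H.one_Ry
    linarith
  refine ⟨?_, ?_, ?_⟩
  · intro b
    have h6 := (h3 (ys b) (H.ys_sl b)).1
    refine dgp_lip (tau_div H hRy1 ?_)
    rwa [add_sub_add_right_eq_sub]
  · intro l s
    have h6 := (h3 _ (H.ys_sl (Fin.natAdd k0 l))).2 ((s : ℕ) + 1) (by omega) (by
      have := s.2
      omega)
    exact dg_lip (tau_div H hRy1 h6)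
  · intro u s
    have h6 := h5 _ (H.gs_gr u) ((s : ℕ) + 1) (by omega) (by
      have := s.2
      omega)
    exact dg_lip (tau_div H H.one_Rg h6)

end

/-- Contexts. -/
theorem ctx_th {D : NDat2} {c k0 k1 : ℕ} (J w z i j r X : ℕ) (C : ℝ) (S : Slo D)
    (ys : Fin (k0 + k1) → ℕ) (gs : Fin c → ℕ) (ω ω' : D.Ω) :
    (tv D J w z i j r X C S ys gs ω = tv D J w z i j r X C S ys gs ω') ↔
    ((Sv D z X C S ys gs ω, (D.c (i - 1) (j - r) ω, (D.c i j ω, D.T ω))) =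
      (Sv D z X C S ys gs ω', (D.c (i - 1) (j - r) ω', (D.c i j ω', D.T ω')))) := by
  unfold tv cb Pool.P4.bb
  constructor
  · intro h
    have h2 := (Prod.ext_iff.mp h).1
    have h3 := (Prod.ext_iff.mp h).2
    have h4 := (Prod.ext_iff.mp h3).1
    have h5 := (Prod.ext_iff.mp h3).2
    have h6 := (Prod.ext_iff.mp h2).1
    have h7 := (Prod.ext_iff.mp h6).1
    have h8 := (Prod.ext_iff.mp h6).2
    exact Prod.ext h5 (Prod.ext h8 (Prod.ext h7 h4))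
  · intro h
    have h1 := (Prod.ext_iff.mp h).1
    have h2 := (Prod.ext_iff.mp h).2
    have h3 := (Prod.ext_iff.mp h2).1
    have h4 := (Prod.ext_iff.mp h2).2
    have h5 := (Prod.ext_iff.mp h4).1
    have h6 := (Prod.ext_iff.mp h4).2
    have h7 : D.T ω / 2 ^ (J - w) = D.T ω' / 2 ^ (J - w) := congrArg (· / 2 ^ (J - w)) h6
    exact Prod.ext (Prod.ext (Prod.ext h5 h3) h7) (Prod.ext h6 h1)

/-- Contexts. -/
theorem ctx_v {D : NDat2} {c k0 k1 : ℕ} (J w z i j r d X : ℕ) (C : ℝ) (P : D.Γ × D.Γ → ℕ → PN)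
    (S : Slo D) (ys : Fin (k0 + k1) → ℕ) (gs : Fin c → ℕ) (ω ω' : D.Ω) :
    ((vv D J w z i j r d X C P ys gs ω, tv D J w z i j r X C S ys gs ω) =
      (vv D J w z i j r d X C P ys gs ω', tv D J w z i j r X C S ys gs ω')) ↔
    (((yv D J w z i j r X C P ys ω, (mv D J w z i j r d X C P ys ω,
        bev D J w z i j r d X C P gs ω)),
        (Sv D z X C S ys gs ω, (D.c (i - 1) (j - r) ω, (D.c i j ω, D.T ω)))) =
      ((yv D J w z i j r X C P ys ω', (mv D J w z i j r d X C P ys ω',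
        bev D J w z i j r d X C P gs ω')),
        (Sv D z X C S ys gs ω', (D.c (i - 1) (j - r) ω', (D.c i j ω', D.T ω'))))) := by
  constructor
  · intro h
    have h1 := (Prod.ext_iff.mp h).1
    have h2 := (Prod.ext_iff.mp h).2
    exact Prod.ext (Prod.ext_iff.mp h1).2 ((ctx_th J w z i j r X C S ys gs ω ω').mp h2)
  · intro h
    have h1 := (Prod.ext_iff.mp h).1
    have h2 := (ctx_th J w z i j r X C S ys gs ω ω').mpr (Prod.ext_iff.mp h).2
    have h3 : cb D J w i j r ω = cb D J w i j r ω' := (Prod.ext_iff.mp h2).1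
    exact Prod.ext (Prod.ext h3 h1) h2

/-- **(H2).** -/
theorem h2_stmt : H2Stmt := by
  intro n d K K' c k0 k1 C₁ C
  obtain ⟨a1, ha1⟩ : ∃ a1, a1 = aC c 2 (k0 + k1 + 1) := ⟨_, rfl⟩
  obtain ⟨a2, ha2⟩ : ∃ a2, a2 = aC (k0 + k1) 2 1 := ⟨_, rfl⟩
  obtain ⟨a3, ha3⟩ : ∃ a3, a3 = aC d 2 1 := ⟨_, rfl⟩
  have a10 : 0 ≤ a1 := by
    rw [ha1]
    exact aC_nonneg _ _ _
  have a20 : 0 ≤ a2 := by
    rw [ha2]
    exact aC_nonneg _ _ _
  have a30 : 0 ≤ a3 := by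
    rw [ha3]
    exact aC_nonneg _ _ _
  have c0 : (0 : ℝ) ≤ c := Nat.cast_nonneg c
  have k10 : (0 : ℝ) ≤ k1 := Nat.cast_nonneg k1
  refine ⟨1 + a1 + c * a2 + a2 + k1 * a3 + c * a3, by positivity, ?_⟩
  intro D J a₀ w₀ z M w i j r r2 r' r'' y a X th lam gam κ q E P S ys gs H
  have hq := H.ok.isLaw
  have h0 := hq.nonneg
  obtain ⟨b, hb⟩ : ∃ b, b = Pb q (fun ω => ¬ E ω) := ⟨_, rfl⟩
  have b0 : 0 ≤ b := by
    rw [hb]
    exact Pool.MIC.Pb_nonneg h0 _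
  rw [← hb]
  obtain ⟨hg, hhg⟩ : ∃ hg : D.Ω → Fin c → ℤ, hg =
    hv (c := c) (k0 := k0) (k1 := k1) D z i j r X C P S gs n th gam := ⟨_, rfl⟩
  rw [← hhg]
  obtain ⟨W, hW⟩ : ∃ W : D.Ω → D.Γ × ℕ, W = fun ω => (D.c i j ω, D.T ω) := ⟨_, rfl⟩
  obtain ⟨β, hβ⟩ : ∃ β : D.Ω → D.Γ, β = D.c (i - 1) (j - r) := ⟨_, rfl⟩
  obtain ⟨L, hL⟩ : ∃ L, L = D.lft i j r' r 1 := ⟨_, rfl⟩
  obtain ⟨R, hR⟩ : ∃ R, R = D.rgt i j r' r 1 := ⟨_, rfl⟩
  obtain ⟨sv, hsv⟩ : ∃ sv, sv = Sv (c := c) (k0 := k0) (k1 := k1) D z X C S ys gs := ⟨_, rfl⟩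
  obtain ⟨yy, hyy⟩ : ∃ yy, yy = yv D J w z i j r X C P ys := ⟨_, rfl⟩
  obtain ⟨mm, hmm⟩ : ∃ mm, mm = mv D J w z i j r d X C P ys := ⟨_, rfl⟩
  obtain ⟨bb', hbb⟩ : ∃ bb', bb' = bev (c := c) D J w z i j r d X C P gs := ⟨_, rfl⟩
  have i1 := H.i1
  have i2 := H.i2
  have j1 := H.j1
  have j2 := H.j2
  have r1 := H.r1
  -- the two sides
  have dL : Det q L β := by
    intro ω ω' hω hω' e
    rw [hL] at e
    have e1 := congrFun e (1 : Fin 2)
    simp only [NDat2.lft, Fin.val_one, one_mul] at e1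
    rw [hβ]
    exact c_up1 H.ok (by omega) i r' (by omega) ω ω' hω hω' e1
  have hMI : MI q L R W ≤ κ * z := by
    have := H.dma.lr (i := i) (j := j) (a := r') (b := r) (s := 1) (s' := 1) (by omega)
      (by omega) (by omega) (by omega)
    unfold MI
    rw [hL, hR, hW]
    linarith
  -- equalities of contexts
  have eqR : ∀ ω ω', 0 < q ω → 0 < q ω' → (R ω, (β ω, W ω)) = (R ω', (β ω', W ω')) →
      bb D i j r ω = bb D i j r ω' ∧ D.T ω = D.T ω' ∧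
        D.s (i - r') (j + r) ω = D.s (i - r') (j + r) ω' := by
    intro ω ω' hω hω' e
    rw [hR, hβ, hW] at e
    simp only [Prod.mk.injEq] at e
    obtain ⟨e1, e2, e3, e4⟩ := e
    have e5 := congrFun e1 (1 : Fin 2)
    simp only [NDat2.rgt, Fin.val_one, one_mul] at e5
    refine ⟨Prod.ext e3 e2, e4, ?_⟩
    exact H.ok.s_c (i - r') (by omega) (j + r) (by omega) ω ω' hω hω' (Prod.ext e5 e4)
  have eqL : ∀ ω ω', 0 < q ω → 0 < q ω' → (L ω, (β ω, W ω)) = (L ω', (β ω', W ω')) →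
      bb D i j r ω = bb D i j r ω' ∧ D.T ω = D.T ω' ∧
        D.c (i + r') (j - r) ω = D.c (i + r') (j - r) ω' := by
    intro ω ω' hω hω' e
    rw [hL, hβ, hW] at e
    simp only [Prod.mk.injEq] at e
    obtain ⟨e1, e2, e3, e4⟩ := e
    have e5 := congrFun e1 (1 : Fin 2)
    simp only [NDat2.lft, Fin.val_one, one_mul] at e5
    exact ⟨Prod.ext e3 e2, e4, e5⟩
  -- few values
  have k1' : CH q hg (fun ω => (R ω, (β ω, W ω))) ≤ a1 * (z + X * b) := by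
    rw [ha1, hb]
    refine few_z hq hg _ E 2 (k0 + k1 + 1) H.z1 ?_ ?_
    · intro ω ω' hω hω' hE hE' e u
      obtain ⟨e1, e2, e3⟩ := eqR ω ω' hω hω' e
      rw [hhg]
      exact hv_two H hω hω' hE hE' e1 e2 e3 u
    · intro ω hω u
      rw [hhg]
      exact dgm_abs
  have k2 : CH q sv (fun ω => (R ω, (β ω, W ω))) ≤ c * (a2 * (z + X * b)) := by
    refine Pool.RC21.CH_fin_le h0 (fun ω => (R ω, (β ω, W ω))) c (fun u ω => sv ω u) fun u => ?_
    rw [ha2, hb]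
    refine few_z hq (fun ω => sv ω u) _ E 2 1 H.z1 ?_ ?_
    · intro ω ω' hω hω' hE hE' e a
      obtain ⟨e1, e2, e3⟩ := eqR ω ω' hω hω' e
      rw [hsv]
      exact S_two H hω hω' hE hE' e1 e2 e3 u a
    · intro ω hω a
      rw [hsv, Nat.cast_one, one_mul]
      exact dg_abs _
  have k3 : CH q yy (fun ω => (L ω, (β ω, W ω))) ≤ a2 * (z + X * b) := by
    rw [ha2, hb]
    refine few_z hq yy _ E 2 1 H.z1 ?_ ?_
    · intro ω ω' hω hω' hE hE' e a
      obtain ⟨e1, e2, e3⟩ := eqL ω ω' hω hω' e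
      rw [hyy]
      exact (v_two H hω hω' hE hE' e1 e3 (by rw [e2])).1 a
    · intro ω hω a
      rw [hyy, Nat.cast_one, one_mul]
      exact dgp_abs _
  have k4 : CH q bb' (fun ω => (L ω, (β ω, W ω))) ≤ c * (a3 * (z + X * b)) := by
    refine Pool.RC21.CH_fin_le h0 (fun ω => (L ω, (β ω, W ω))) c (fun u ω => bb' ω u) fun u => ?_
    rw [ha3, hb]
    refine few_z hq (fun ω => bb' ω u) _ E 2 1 H.z1 ?_ ?_
    · intro ω ω' hω hω' hE hE' e s
      obtain ⟨e1, e2, e3⟩ := eqL ω ω' hω hω' e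
      rw [hbb]
      exact (v_two H hω hω' hE hE' e1 e3 (by rw [e2])).2.2 u s
    · intro ω hω s
      rw [hbb, Nat.cast_one, one_mul]
      exact dg_abs _
  have k4' : CH q mm (fun ω => (L ω, (β ω, W ω))) ≤ k1 * (a3 * (z + X * b)) := by
    refine Pool.RC21.CH_fin_le h0 (fun ω => (L ω, (β ω, W ω))) k1 (fun l ω => mm ω l) fun l => ?_
    rw [ha3, hb]
    refine few_z hq (fun ω => mm ω l) _ E 2 1 H.z1 ?_ ?_
    · intro ω ω' hω hω' hE hE' e s
      obtain ⟨e1, e2, e3⟩ := eqL ω ω' hω hω' e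
      rw [hmm]
      exact (v_two H hω hω' hE hE' e1 e3 (by rw [e2])).2.1 l s
    · intro ω hω s
      rw [hmm, Nat.cast_one, one_mul]
      exact dg_abs _
  have k5 := CH_subadd h0 sv hg (fun ω => (R ω, (β ω, W ω)))
  have k6 := CH_subadd h0 yy (fun ω => (mm ω, bb' ω)) (fun ω => (L ω, (β ω, W ω)))
  have k6' := CH_subadd h0 mm bb' (fun ω => (L ω, (β ω, W ω)))
  have k7 := sides h0 (fun ω => (sv ω, hg ω)) (fun ω => (yy ω, (mm ω, bb' ω))) L R W β dL hMI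
    (k5.trans (add_le_add k2 k1'))
    (k6.trans (add_le_add k3 (k6'.trans (add_le_add k4' k4))))
  have k8 := MI_inner h0 hg sv (fun ω => (yy ω, (mm ω, bb' ω))) (fun ω => (β ω, W ω))
  -- the literal form
  have l1 : CH q hg (tv D J w z i j r X C S ys gs) = CH q hg (fun ω => (sv ω, (β ω, W ω))) := by
    refine CH_congr h0 (fun _ _ _ _ h => (Prod.ext_iff.mp h).1)
      (fun _ _ _ _ h => (Prod.ext_iff.mp h).1) ?_ ?_
    · intro ω ω' _ _ h
      rw [hsv, hβ, hW]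
      exact (ctx_th J w z i j r X C S ys gs ω ω').mp h
    · intro ω ω' _ _ h
      rw [hsv, hβ, hW] at h
      exact (ctx_th J w z i j r X C S ys gs ω ω').mpr h
  have l2 : CH q hg (fun ω => (vv D J w z i j r d X C P ys gs ω,
      tv D J w z i j r X C S ys gs ω)) =
      CH q hg (fun ω => ((yy ω, (mm ω, bb' ω)), (sv ω, (β ω, W ω)))) := by
    refine CH_congr h0 (fun _ _ _ _ h => (Prod.ext_iff.mp h).1)
      (fun _ _ _ _ h => (Prod.ext_iff.mp h).1) ?_ ?_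
    · intro ω ω' _ _ h
      rw [hsv, hβ, hW, hyy, hmm, hbb]
      exact (ctx_v J w z i j r d X C P S ys gs ω ω').mp h
    · intro ω ω' _ _ h
      rw [hsv, hβ, hW, hyy, hmm, hbb] at h
      exact (ctx_v J w z i j r d X C P S ys gs ω ω').mpr h
  rw [l1, l2]
  unfold MI at k7 k8
  have z1 : (1 : ℝ) ≤ z := by exact_mod_cast H.z1
  have x0 : (0 : ℝ) ≤ X := Nat.cast_nonneg X
  have xb : 0 ≤ (X : ℝ) * b := mul_nonneg x0 b0
  have κ0 := H.κ0
  have m1 : κ * z + (c * (a2 * (z + X * b)) + a1 * (z + X * b)) +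
      (a2 * (z + X * b) + (k1 * (a3 * (z + X * b)) + c * (a3 * (z + X * b)))) ≤
      err (1 + a1 + c * a2 + a2 + k1 * a3 + c * a3) κ z X b := by
    unfold err
    have ca : 0 ≤ (c : ℝ) * a2 := mul_nonneg c0 a20
    have cb' : 0 ≤ (k1 : ℝ) * a3 := mul_nonneg k10 a30
    have cc : 0 ≤ (c : ℝ) * a3 := mul_nonneg c0 a30
    have n1 : 0 ≤ a1 + c * a2 + a2 + k1 * a3 + c * a3 := by positivity
    have n2 : 0 ≤ κ * z := mul_nonneg κ0 (by linarith)
    have n3 : 0 ≤ (a1 + c * a2 + a2 + k1 * a3 + c * a3) * (κ * z) := mul_nonneg n1 n2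
    nlinarith
  linarith

end Pool.TC97
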